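import Pool.Agent.W251.EX.Defs2

/-!
# Project EX, part DCV: deconvolution
-/

set_option autoImplicit false

namespace Pool.Agent.W588.EX

open Finset Filter
open Pool.Agent.W78.EC (PQ)
open Pool.Agent.W251.EX

namespace DCV

/-- upper bound for the logarithmic mean -/
def Av (f : ℝ → ℝ) (η : ℝ) : Prop := ∃ K : ℝ, ∀ N : ℕ, 1 ≤ N →
  ∑ X ∈ Icc 1 N, 1 / (X : ℝ) * f X ≤ η * Real.log N + K

theorem sum_inv_le (N : ℕ) : ∑ X ∈ Icc 1 N, 1 / (X : ℝ) ≤ 1 + Real.log N := by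
  have h := harmonic_le_one_add_log N
  rw [harmonic_eq_sum_Icc] at h
  push_cast at h
  simpa using h

theorem sum_inv_sq_le (N : ℕ) : ∑ X ∈ Icc 1 N, 1 / (X : ℝ) ^ 2 ≤ 2 := by
  have h := sum_Ioo_inv_sq_le (α := ℝ) 0 (N + 1)
  have e : Ioo 0 (N + 1) = Icc 1 N := by
    ext x
    simp only [mem_Ioo, mem_Icc]
    omega
  rw [e] at h
  simpa using h

theorem count_lt (x₀ B : ℝ) (hB : 0 ≤ B) (N : ℕ) :
    ∑ X ∈ Icc 1 N, (if (X : ℝ) < x₀ then B else 0) ≤ B * ⌈x₀⌉₊ := by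
  rw [← sum_filter, sum_const, nsmul_eq_mul, mul_comm]
  refine mul_le_mul_of_nonneg_left ?_ hB
  have : (Icc 1 N).filter (fun X : ℕ => (X : ℝ) < x₀) ⊆ range ⌈x₀⌉₊ := by
    intro X hX
    rw [mem_filter] at hX
    rw [mem_range]
    exact Nat.lt_ceil.2 hX.2
  have h2 := card_le_card this
  rw [card_range] at h2
  exact_mod_cast h2

theorem inv_bd {X : ℕ} (hX : 1 ≤ X) : 1 / (X : ℝ) ≤ 1 ∧ 0 ≤ 1 / (X : ℝ) := by
  have hX1 : (1 : ℝ) ≤ X := by exact_mod_cast hX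
  exact ⟨by rw [div_le_one (by linarith)]; exact hX1, by positivity⟩

theorem Av.mono_ev {f g : ℝ → ℝ} {η B x₀ : ℝ} (hg : Av g η) (hg0 : ∀ x, 0 ≤ g x)
    (hB : 0 ≤ B) (hf : ∀ x, f x ≤ B) (hfg : ∀ x, x₀ ≤ x → f x ≤ g x) : Av f η := by
  obtain ⟨K, hK⟩ := hg
  refine ⟨K + B * ⌈x₀⌉₊, fun N hN => ?_⟩
  have h1 : ∑ X ∈ Icc 1 N, 1 / (X : ℝ) * f X ≤
      ∑ X ∈ Icc 1 N, (1 / (X : ℝ) * g X + if (X : ℝ) < x₀ then B else 0) := by
    refine sum_le_sum fun X hX => ?_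
    obtain ⟨hi, hi0⟩ := inv_bd (mem_Icc.1 hX).1
    split_ifs with h
    · have h3 := mul_le_mul_of_nonneg_left (hf X) hi0
      have h4 : 1 / (X : ℝ) * B ≤ 1 * B := mul_le_mul_of_nonneg_right hi hB
      have h5 := mul_nonneg hi0 (hg0 X)
      linarith
    · rw [add_zero]
      exact mul_le_mul_of_nonneg_left (hfg X (not_lt.1 h)) hi0
  rw [sum_add_distrib] at h1
  have h2 := hK N hN
  have h3 := count_lt x₀ B hB N
  linarith

theorem Av.const {B : ℝ} (hB : 0 ≤ B) : Av (fun _ => B) B := by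
  refine ⟨B, fun N hN => ?_⟩
  rw [← sum_mul]
  have := mul_le_mul_of_nonneg_right (sum_inv_le N) hB
  linarith

theorem Av.add {f g : ℝ → ℝ} {η θ : ℝ} (hf : Av f η) (hg : Av g θ) :
    Av (fun x => f x + g x) (η + θ) := by
  obtain ⟨K, hK⟩ := hf
  obtain ⟨L, hL⟩ := hg
  refine ⟨K + L, fun N hN => ?_⟩
  simp only [mul_add, sum_add_distrib]
  have h1 := hK N hN
  have h2 := hL N hN
  linarith

theorem Av.smul {f : ℝ → ℝ} {η c : ℝ} (hc : 0 ≤ c) (hf : Av f η) :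
    Av (fun x => c * f x) (c * η) := by
  obtain ⟨K, hK⟩ := hf
  refine ⟨c * K, fun N hN => ?_⟩
  have h := mul_le_mul_of_nonneg_left (hK N hN) hc
  rw [mul_sum] at h
  calc _ = ∑ X ∈ Icc 1 N, c * (1 / (X : ℝ) * f X) := sum_congr rfl fun X _ => by ring
    _ ≤ _ := h
    _ = _ := by ring

theorem Av.weaken {f : ℝ → ℝ} {η θ : ℝ} (h : Av f η) (hle : η ≤ θ) : Av f θ := by
  obtain ⟨K, hK⟩ := h
  refine ⟨K, fun N hN => (hK N hN).trans ?_⟩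
  have h1 := Real.log_nonneg (show (1 : ℝ) ≤ N by exact_mod_cast hN)
  have h2 := mul_le_mul_of_nonneg_right hle h1
  linarith

theorem Av.of_bd {f : ℝ → ℝ} {B : ℝ} (hB : 0 ≤ B) (hf : ∀ x, f x ≤ B) : Av f B :=
  (Av.const hB).mono_ev (x₀ := 0) (fun _ => hB) hB hf fun x _ => hf x

/-- from large `N` to all `N` -/
theorem Av.of_large {f : ℝ → ℝ} {η B K : ℝ} {N₀ : ℕ} (hη : 0 ≤ η) (hB : 0 ≤ B)
    (hf : ∀ x, f x ≤ B) (h : ∀ N : ℕ, 1 ≤ N → N₀ ≤ N →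
      ∑ X ∈ Icc 1 N, 1 / (X : ℝ) * f X ≤ η * Real.log N + K) : Av f η := by
  refine ⟨max K (B * (1 + Real.log (N₀ + 1))), fun N hN => ?_⟩
  have hN1 : (1 : ℝ) ≤ N := by exact_mod_cast hN
  by_cases hN₀ : N₀ ≤ N
  · have h1 := h N hN hN₀
    have h2 := le_max_left K (B * (1 + Real.log (N₀ + 1)))
    linarith
  · have h1 : ∑ X ∈ Icc 1 N, 1 / (X : ℝ) * f X ≤ ∑ X ∈ Icc 1 N, 1 / (X : ℝ) * B :=
      sum_le_sum fun X hX => mul_le_mul_of_nonneg_left (hf X) (inv_bd (mem_Icc.1 hX).1).2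
    rw [← sum_mul] at h1
    have h2 := mul_le_mul_of_nonneg_right (sum_inv_le N) hB
    have h3 : Real.log N ≤ Real.log (N₀ + 1) := by
      apply Real.log_le_log (by linarith)
      have : N ≤ N₀ + 1 := by omega
      exact_mod_cast this
    have h4 := le_max_right K (B * (1 + Real.log (N₀ + 1)))
    have h5 : (1 + Real.log N) * B ≤ B * (1 + Real.log (N₀ + 1)) := by
      rw [mul_comm B]
      exact mul_le_mul_of_nonneg_right (by linarith) hB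
    have h6 := mul_nonneg hη (Real.log_nonneg hN1)
    linarith

/-- grouping -/
theorem group (Q : ℕ) (g : ℕ → ℝ) (N : ℕ) :
    ∑ Y ∈ Icc 1 N, ∑ i ∈ range Q, g (Q * Y + i) = ∑ X ∈ Ico Q (Q * (N + 1)), g X := by
  induction N with
  | zero => simp
  | succ N ih =>
    rw [sum_Icc_succ_top (by omega), ih,
      ← sum_Ico_consecutive g (show Q ≤ Q * (N + 1) by nlinarith) (show Q * (N + 1) ≤ Q * (N + 1 + 1) by nlinarith)]
    congr 1
    rw [sum_Ico_eq_sum_range]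
    have : Q * (N + 1 + 1) - Q * (N + 1) = Q := by
      rw [← Nat.mul_sub]; simp
    rw [this]

theorem group_ineq {f : ℝ → ℝ} {B κ y₀ : ℝ} (hf0 : ∀ x, 0 ≤ f x) (hfB : ∀ x, f x ≤ B)
    (hκ : 0 ≤ κ) (hsv : ∀ x x' : ℝ, y₀ ≤ x → x ≤ x' → x' ≤ x + 1 → f x ≤ f x' + κ)
    (Q : ℕ) (hQ : 1 ≤ Q) (N : ℕ) :
    ∑ Y ∈ Icc 1 N, 1 / (Y : ℝ) * f Y ≤
      ∑ X ∈ Icc 1 (Q * (N + 1)), 1 / (X : ℝ) * f ((X : ℝ) / Q) + κ * (1 + Real.log N) + 2 * B +
        B * ⌈y₀⌉₊ := by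
  have hB : 0 ≤ B := (hf0 0).trans (hfB 0)
  have hQ0 : (0 : ℝ) < Q := by exact_mod_cast hQ
  have hpt : ∀ Y ∈ Icc 1 N, 1 / (Y : ℝ) * f Y ≤
      ∑ i ∈ range Q, 1 / ((Q * Y + i : ℕ) : ℝ) * f (((Q * Y + i : ℕ) : ℝ) / Q) +
        1 / (Y : ℝ) * κ + 1 / (Y : ℝ) ^ 2 * B + (if (Y : ℝ) < y₀ then B else 0) := by
    intro Y hY
    have hY1 : (1 : ℝ) ≤ Y := by exact_mod_cast (mem_Icc.1 hY).1
    have hY0 : (0 : ℝ) < Y := by linarith
    have hsum0 : 0 ≤ ∑ i ∈ range Q, 1 / ((Q * Y + i : ℕ) : ℝ) * f (((Q * Y + i : ℕ) : ℝ) / Q) :=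
      sum_nonneg fun i _ => mul_nonneg (by positivity) (hf0 _)
    have h1 : 0 ≤ 1 / (Y : ℝ) * κ := mul_nonneg (by positivity) hκ
    have h2 : 0 ≤ 1 / (Y : ℝ) ^ 2 * B := mul_nonneg (by positivity) hB
    split_ifs with h
    · obtain ⟨hi, hi0⟩ := inv_bd (mem_Icc.1 hY).1
      have h3 := mul_le_mul_of_nonneg_left (hfB Y) hi0
      have h4 : 1 / (Y : ℝ) * B ≤ 1 * B := mul_le_mul_of_nonneg_right hi hB
      linarith
    · rw [add_zero]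
      have hYy := not_lt.1 h
      have hterm : ∀ i ∈ range Q, 1 / ((Q : ℝ) * (Y + 1)) * f Y ≤
          1 / ((Q * Y + i : ℕ) : ℝ) * f (((Q * Y + i : ℕ) : ℝ) / Q) + 1 / ((Q : ℝ) * Y) * κ := by
        intro i hi
        have hiQ : (i : ℝ) ≤ Q := by exact_mod_cast (mem_range.1 hi).le
        have hi0 : (0 : ℝ) ≤ i := Nat.cast_nonneg i
        have hcast : ((Q * Y + i : ℕ) : ℝ) = Q * Y + i := by push_cast; ring
        rw [hcast]
        have hden : 0 < (Q : ℝ) * Y + i := by positivity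
        have h5 : f Y ≤ f (((Q : ℝ) * Y + i) / Q) + κ := by
          refine hsv _ _ hYy ?_ ?_
          · rw [le_div_iff₀ hQ0]; linarith
          · rw [div_le_iff₀ hQ0]; linarith
        have h6 : 1 / ((Q : ℝ) * (Y + 1)) ≤ 1 / ((Q : ℝ) * Y + i) :=
          one_div_le_one_div_of_le hden (by linarith)
        have h7 : 1 / ((Q : ℝ) * Y + i) ≤ 1 / ((Q : ℝ) * Y) :=
          one_div_le_one_div_of_le (by positivity) (by linarith)
        calc 1 / ((Q : ℝ) * (Y + 1)) * f Y ≤ 1 / ((Q : ℝ) * Y + i) * f Y :=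
              mul_le_mul_of_nonneg_right h6 (hf0 _)
          _ ≤ 1 / ((Q : ℝ) * Y + i) * (f (((Q : ℝ) * Y + i) / Q) + κ) :=
              mul_le_mul_of_nonneg_left h5 (by positivity)
          _ = 1 / ((Q : ℝ) * Y + i) * f (((Q : ℝ) * Y + i) / Q) + 1 / ((Q : ℝ) * Y + i) * κ := by ring
          _ ≤ _ := by
              have := mul_le_mul_of_nonneg_right h7 hκ
              linarith
      have h8 := sum_le_sum hterm
      rw [sum_add_distrib, sum_const, sum_const, card_range, nsmul_eq_mul, nsmul_eq_mul] at h8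
      have h9 : (Q : ℝ) * (1 / ((Q : ℝ) * (Y + 1)) * f Y) = 1 / ((Y : ℝ) + 1) * f Y := by
        field_simp
      have h10 : (Q : ℝ) * (1 / ((Q : ℝ) * Y) * κ) = 1 / (Y : ℝ) * κ := by
        field_simp
      rw [h9, h10] at h8
      have h11 : 1 / (Y : ℝ) * f Y ≤ 1 / ((Y : ℝ) + 1) * f Y + 1 / (Y : ℝ) ^ 2 * B := by
        have e : 1 / (Y : ℝ) = 1 / ((Y : ℝ) + 1) + 1 / ((Y : ℝ) * (Y + 1)) := by
          field_simp
        have h12 : 1 / ((Y : ℝ) * (Y + 1)) ≤ 1 / (Y : ℝ) ^ 2 :=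
          one_div_le_one_div_of_le (by positivity) (by nlinarith)
        calc 1 / (Y : ℝ) * f Y = 1 / ((Y : ℝ) + 1) * f Y + 1 / ((Y : ℝ) * (Y + 1)) * f Y := by
              rw [← add_mul, ← e]
          _ ≤ 1 / ((Y : ℝ) + 1) * f Y + 1 / (Y : ℝ) ^ 2 * B := by
              have := mul_le_mul h12 (hfB Y) (hf0 _) (by positivity)
              linarith
      linarith
  have h1 := sum_le_sum hpt
  rw [sum_add_distrib, sum_add_distrib, sum_add_distrib, ← sum_mul, ← sum_mul,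
    group Q (fun X => 1 / (X : ℝ) * f ((X : ℝ) / Q)) N] at h1
  have h2 : ∑ X ∈ Ico Q (Q * (N + 1)), 1 / (X : ℝ) * f ((X : ℝ) / Q) ≤
      ∑ X ∈ Icc 1 (Q * (N + 1)), 1 / (X : ℝ) * f ((X : ℝ) / Q) := by
    refine sum_le_sum_of_subset_of_nonneg ?_ fun X _ _ => mul_nonneg (by positivity) (hf0 _)
    intro X hX
    rw [mem_Ico] at hX
    rw [mem_Icc]
    omega
  have h3 := mul_le_mul_of_nonneg_right (sum_inv_le N) hκ
  have h4 := mul_le_mul_of_nonneg_right (sum_inv_sq_le N) hB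
  have h5 := count_lt y₀ B hB N
  linarith

/-- nice functions -/
structure Nc (b : ℝ → ℂ) (B : ℝ) : Prop where
  bd : ∀ x, ‖b x‖ ≤ B
  sv : ∀ κ : ℝ, 0 < κ → ∃ x₀ : ℝ, ∀ x x' : ℝ, x₀ ≤ x → x ≤ x' → x' ≤ x + 2 → ‖b x' - b x‖ ≤ κ

theorem Nc.nn {b : ℝ → ℂ} {B : ℝ} (h : Nc b B) : 0 ≤ B := (norm_nonneg _).trans (h.bd 0)

theorem norm_le_of {u v : ℂ} {κ : ℝ} (h : ‖v - u‖ ≤ κ) : ‖u‖ ≤ ‖v‖ + κ := by
  have h1 : ‖u‖ ≤ ‖v‖ + ‖v - u‖ := by
    calc ‖u‖ = ‖v - (v - u)‖ := by congr 1; ring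
      _ ≤ ‖v‖ + ‖v - u‖ := norm_sub_le _ _
  linarith

theorem norm_le_of' {u v : ℂ} {κ : ℝ} (h : ‖v - u‖ ≤ κ) : ‖v‖ ≤ ‖u‖ + κ := by
  have h1 : ‖v‖ ≤ ‖u‖ + ‖v - u‖ := by
    calc ‖v‖ = ‖u + (v - u)‖ := by congr 1; ring
      _ ≤ ‖u‖ + ‖v - u‖ := norm_add_le _ _
  linarith

theorem log_mul_le {Q : ℕ} (hQ : 1 ≤ Q) {N : ℕ} (hN : 1 ≤ N) :
    Real.log ((Q * (N + 1) : ℕ) : ℝ) ≤ Real.log N + Real.log (2 * Q) := by
  have hQ0 : (0 : ℝ) < Q := by exact_mod_cast hQ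
  have hN1 : (1 : ℝ) ≤ N := by exact_mod_cast hN
  rw [← Real.log_mul (by positivity) (by positivity)]
  apply Real.log_le_log (by positivity)
  push_cast
  nlinarith

/-- dilation by `2` -/
theorem dil2 {b : ℝ → ℂ} {B η κ : ℝ} (hb : Nc b B) (hκ : 0 < κ) (hη : 0 ≤ η)
    (h : Av (fun x => ‖b x‖) η) : Av (fun x => ‖b (2 * x)‖) (η + κ) := by
  obtain ⟨x₀, hx₀⟩ := hb.sv κ hκ
  obtain ⟨K, hK⟩ := h
  refine ⟨η * Real.log (2 * (2 : ℕ)) + K + κ + 2 * B + B * ⌈|x₀|⌉₊, fun N hN => ?_⟩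
  have h1 := group_ineq (f := fun x => ‖b (2 * x)‖) (B := B) (κ := κ) (y₀ := |x₀|)
    (fun _ => norm_nonneg _) (fun _ => hb.bd _) hκ.le (fun x x' h1 h2 h3 => ?_) 2 (by norm_num) N
  · have h2 := hK (2 * (N + 1)) (by omega)
    have h3 : ∑ X ∈ Icc 1 (2 * (N + 1)), 1 / (X : ℝ) * ‖b (2 * ((X : ℝ) / (2 : ℕ)))‖ =
        ∑ X ∈ Icc 1 (2 * (N + 1)), 1 / (X : ℝ) * ‖b X‖ := by
      refine sum_congr rfl fun X _ => ?_
      congr 3
      push_cast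
      ring
    beta_reduce at h1
    rw [h3] at h1
    have h4 := mul_le_mul_of_nonneg_left (log_mul_le (Q := 2) (by norm_num) hN) hη
    beta_reduce at h2 ⊢
    generalize Real.log (2 * ((2 : ℕ) : ℝ)) = L at h4 ⊢
    generalize Real.log ((2 * (N + 1) : ℕ) : ℝ) = L' at h2 h4
    linarith
  · have h4 : 0 ≤ x := (abs_nonneg x₀).trans h1
    refine norm_le_of (hx₀ _ _ ?_ ?_ ?_)
    · have := le_abs_self x₀
      linarith
    · linarith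
    · linarith

/-- dilation by `c`, `1 ≤ c ≤ 2` -/
theorem dilc {b : ℝ → ℂ} {B η κ c : ℝ} (hb : Nc b B) (hc1 : 1 ≤ c) (hc2 : c ≤ 2) (hκ : 0 < κ)
    (h : Av (fun x => ‖b x‖) η) : Av (fun x => ‖b (c * x)‖) (2 * η + κ) := by
  obtain ⟨x₀, hx₀⟩ := hb.sv (κ / 2) (by linarith)
  obtain ⟨K, hK⟩ := h
  have hB := hb.nn
  refine ⟨2 * (η * Real.log 2 + K) + κ * (1 + Real.log 2) + B * ⌈x₀ + 1⌉₊, fun N hN => ?_⟩
  have hN0 : (0 : ℝ) < N := by exact_mod_cast hN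
  have hpt : ∀ Y ∈ Icc 1 N, 1 / (Y : ℝ) * ‖b (c * Y)‖ ≤
      2 / ((⌊c * Y⌋₊ : ℕ) : ℝ) * (‖b ((⌊c * Y⌋₊ : ℕ) : ℝ)‖ + κ / 2) +
        (if (Y : ℝ) < x₀ + 1 then B else 0) := by
    intro Y hY
    have hY1 : (1 : ℝ) ≤ Y := by exact_mod_cast (mem_Icc.1 hY).1
    have hcY : (Y : ℝ) ≤ c * Y := by nlinarith
    have hZ1 := Nat.floor_le (show 0 ≤ c * (Y : ℝ) by linarith)
    have hZ2 := Nat.lt_floor_add_one (c * (Y : ℝ))
    have hZ3 : 1 ≤ ⌊c * (Y : ℝ)⌋₊ := Nat.le_floor (by push_cast; linarith)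
    have hZ4 : (1 : ℝ) ≤ (⌊c * (Y : ℝ)⌋₊ : ℕ) := by exact_mod_cast hZ3
    have hnn : 0 ≤ 2 / ((⌊c * Y⌋₊ : ℕ) : ℝ) * (‖b ((⌊c * Y⌋₊ : ℕ) : ℝ)‖ + κ / 2) :=
      mul_nonneg (by positivity) (by positivity)
    split_ifs with h
    · obtain ⟨hi, hi0⟩ := inv_bd (mem_Icc.1 hY).1
      have h3 := mul_le_mul_of_nonneg_left (hb.bd (c * Y)) hi0
      have h4 : 1 / (Y : ℝ) * B ≤ 1 * B := mul_le_mul_of_nonneg_right hi hB
      linarith
    · rw [add_zero]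
      have h5 := not_lt.1 h
      have h6 : ‖b (c * Y)‖ ≤ ‖b ((⌊c * Y⌋₊ : ℕ) : ℝ)‖ + κ / 2 :=
        norm_le_of' (hx₀ _ _ (by linarith) hZ1 (by linarith))
      have h7 : 1 / (Y : ℝ) ≤ 2 / ((⌊c * Y⌋₊ : ℕ) : ℝ) := by
        rw [div_le_div_iff₀ (by linarith) (by linarith)]
        nlinarith
      exact mul_le_mul h7 h6 (norm_nonneg _) (by positivity)
  have h1 := sum_le_sum hpt
  rw [sum_add_distrib] at h1
  have hinj : Set.InjOn (fun Y : ℕ => ⌊c * (Y : ℝ)⌋₊) (Icc 1 N : Finset ℕ) := by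
    have hmono : ∀ Y Y' : ℕ, Y < Y' → ⌊c * (Y : ℝ)⌋₊ < ⌊c * (Y' : ℝ)⌋₊ := by
      intro Y Y' hlt
      have h2 : (Y : ℝ) + 1 ≤ Y' := by exact_mod_cast hlt
      have h3 : c * (Y : ℝ) + 1 ≤ c * Y' := by nlinarith
      have hYnn : 0 ≤ c * (Y : ℝ) := by positivity
      calc ⌊c * (Y : ℝ)⌋₊ < ⌊c * (Y : ℝ)⌋₊ + 1 := Nat.lt_succ_self _
        _ = ⌊c * (Y : ℝ) + 1⌋₊ := (Nat.floor_add_one hYnn).symm
        _ ≤ ⌊c * (Y' : ℝ)⌋₊ := Nat.floor_le_floor h3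
    intro Y _ Y' _ he
    rcases lt_trichotomy Y Y' with h2 | h2 | h2
    · exact absurd he (hmono _ _ h2).ne
    · exact h2
    · exact absurd he (hmono _ _ h2).ne'
  have h2 : ∑ Y ∈ Icc 1 N, 2 / ((⌊c * (Y : ℝ)⌋₊ : ℕ) : ℝ) * (‖b ((⌊c * (Y : ℝ)⌋₊ : ℕ) : ℝ)‖ + κ / 2) ≤
      ∑ Z ∈ Icc 1 (2 * N), 2 / (Z : ℝ) * (‖b Z‖ + κ / 2) := by
    rw [← sum_image (f := fun Z : ℕ => 2 / (Z : ℝ) * (‖b Z‖ + κ / 2)) (g := fun Y : ℕ => ⌊c * (Y : ℝ)⌋₊) hinj]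
    refine sum_le_sum_of_subset_of_nonneg ?_ fun Z _ _ => mul_nonneg (by positivity) (by positivity)
    intro Z hZ
    rw [mem_image] at hZ
    obtain ⟨Y, hY, rfl⟩ := hZ
    rw [mem_Icc] at hY ⊢
    have hY1 : (1 : ℝ) ≤ Y := by exact_mod_cast hY.1
    have hY2 : (Y : ℝ) ≤ N := by exact_mod_cast hY.2
    constructor
    · exact Nat.le_floor (by push_cast; nlinarith)
    · apply Nat.floor_le_of_le
      push_cast
      nlinarith
  have h3 : ∑ Z ∈ Icc 1 (2 * N), 2 / (Z : ℝ) * (‖b Z‖ + κ / 2) =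
      2 * ∑ Z ∈ Icc 1 (2 * N), 1 / (Z : ℝ) * ‖b Z‖ + κ * ∑ Z ∈ Icc 1 (2 * N), 1 / (Z : ℝ) := by
    rw [mul_sum, mul_sum, ← sum_add_distrib]
    refine sum_congr rfl fun Z _ => ?_
    ring
  have h4 := hK (2 * N) (by omega)
  have h5 := mul_le_mul_of_nonneg_left (sum_inv_le (2 * N)) hκ.le
  have h6 : Real.log ((2 * N : ℕ) : ℝ) = Real.log 2 + Real.log N := by
    push_cast
    exact Real.log_mul (by norm_num) (by positivity)
  rw [h6] at h4 h5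
  have h7 := count_lt (x₀ + 1) B hB N
  linarith

/-- mesh sums with nat powers -/
noncomputable def Ms (μ : ℝ) (n : ℕ) (a : ℝ → ℂ) (x : ℝ) : ℂ :=
  ∑ j ∈ range n, ((μ ^ (j + 1) - μ ^ j : ℝ) : ℂ) * a (x / μ ^ j)

theorem Tm_eq (m : ℕ) (a : ℝ → ℂ) (x : ℝ) : Tm m a x = Ms ((2 : ℝ) ^ (1 / (m : ℝ))) m a x := by
  unfold Tm Ms
  have e : ∀ j : ℕ, (2 : ℝ) ^ ((j : ℝ) / m) = ((2 : ℝ) ^ (1 / (m : ℝ))) ^ j := by
    intro j
    rw [← Real.rpow_natCast, ← Real.rpow_mul (by norm_num)]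
    congr 1
    ring
  refine sum_congr rfl fun j _ => ?_
  have e2 := e (j + 1)
  push_cast at e2
  rw [e2, e j]

theorem norm_w {μ : ℝ} (hμ : 1 ≤ μ) (j : ℕ) : ‖((μ ^ (j + 1) - μ ^ j : ℝ) : ℂ)‖ = μ ^ (j + 1) - μ ^ j := by
  rw [Complex.norm_real, Real.norm_of_nonneg]
  have := pow_le_pow_right₀ hμ (show j ≤ j + 1 by omega)
  linarith

theorem sum_w (μ : ℝ) (n : ℕ) : ∑ j ∈ range n, (μ ^ (j + 1) - μ ^ j) = μ ^ n - 1 := by
  rw [sum_range_sub]; simp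

theorem Ms_bd {μ C : ℝ} {n : ℕ} {a : ℝ → ℂ} (hμ : 1 ≤ μ) (ha : ∀ x, ‖a x‖ ≤ C) (x : ℝ) :
    ‖Ms μ n a x‖ ≤ (μ ^ n - 1) * C := by
  unfold Ms
  refine (norm_sum_le _ _).trans ?_
  rw [← sum_w, sum_mul]
  refine sum_le_sum fun j _ => ?_
  rw [norm_mul, norm_w hμ]
  refine mul_le_mul_of_nonneg_left (ha _) ?_
  have := pow_le_pow_right₀ hμ (show j ≤ j + 1 by omega)
  linarith

theorem Ms_sub_bd {μ κ : ℝ} {n : ℕ} {a : ℝ → ℂ} (hμ : 1 ≤ μ) (x x' : ℝ)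
    (h : ∀ j < n, ‖a (x' / μ ^ j) - a (x / μ ^ j)‖ ≤ κ) :
    ‖Ms μ n a x' - Ms μ n a x‖ ≤ (μ ^ n - 1) * κ := by
  unfold Ms
  rw [← sum_sub_distrib]
  refine (norm_sum_le _ _).trans ?_
  rw [← sum_w, sum_mul]
  refine sum_le_sum fun j hj => ?_
  rw [← mul_sub, norm_mul, norm_w hμ]
  refine mul_le_mul_of_nonneg_left (h j (mem_range.1 hj)) ?_
  have := pow_le_pow_right₀ hμ (show j ≤ j + 1 by omega)
  linarith

theorem Ms_Nc {μ C : ℝ} {n : ℕ} {a : ℝ → ℂ} (hμ : 1 ≤ μ) (hn : μ ^ n ≤ 2) (ha : Nc a C) :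
    Nc (Ms μ n a) C where
  bd := by
    intro x
    refine (Ms_bd hμ ha.bd x).trans ?_
    have := ha.nn
    nlinarith
  sv := by
    intro κ hκ
    obtain ⟨x₀, hx₀⟩ := ha.sv κ hκ
    refine ⟨2 * |x₀|, fun x x' h1 h2 h3 => ?_⟩
    have hx0 : 0 ≤ x := by have := abs_nonneg x₀; linarith
    refine (Ms_sub_bd (κ := κ) hμ x x' fun j hj => ?_).trans ?_
    · have hj1 : 1 ≤ μ ^ j := one_le_pow₀ hμ
      have hj2 : μ ^ j ≤ 2 := (pow_le_pow_right₀ hμ hj.le).trans hn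
      have hj0 : 0 < μ ^ j := by linarith
      refine hx₀ _ _ ?_ ?_ ?_
      · rw [le_div_iff₀ hj0]
        have h4 := le_abs_self x₀
        have h5 := abs_nonneg x₀
        nlinarith
      · exact div_le_div_of_nonneg_right h2 hj0.le
      · rw [div_add' _ _ _ hj0.ne']
        refine div_le_div_of_nonneg_right ?_ hj0.le
        linarith
    · nlinarith

theorem Sv_Nc {a : ℝ → ℂ} {C : ℝ} (h : Sv a C) : Nc a C where
  bd := h.bd
  sv := by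
    intro κ hκ
    have hC : 0 ≤ C := (norm_nonneg _).trans (h.bd 0)
    obtain ⟨δ, hδ0, hδ1, hδC⟩ : ∃ δ : ℝ, 0 < δ ∧ δ ≤ 1 ∧ C * δ ≤ κ := by
      refine ⟨min 1 (κ / (C + 1)), lt_min one_pos (by positivity), min_le_left _ _, ?_⟩
      calc C * min 1 (κ / (C + 1)) ≤ C * (κ / (C + 1)) :=
            mul_le_mul_of_nonneg_left (min_le_right _ _) hC
        _ ≤ κ := by
            rw [mul_div_assoc', div_le_iff₀ (by positivity)]
            nlinarith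
    obtain ⟨x₀, hx₀⟩ := h.reg δ hδ0 hδ1
    refine ⟨max x₀ (2 / δ), fun x x' h1 h2 h3 => ?_⟩
    have h4 : 2 ≤ δ * x := by
      have := (le_max_right x₀ (2 / δ)).trans h1
      rw [div_le_iff₀ hδ0] at this
      linarith
    exact (hx₀ x x' ((le_max_left _ _).trans h1) h2 (by linarith)).trans hδC

/-- the telescoping identity -/
theorem tele {μ : ℝ} {m J : ℕ} (hm : μ ^ m = 2) (a : ℝ → ℂ) (x : ℝ) :
    Ms μ m a x - ((μ ^ J : ℝ) : ℂ) * Ms μ m a (x / μ ^ J) =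
      Ms μ J a x - 2 * Ms μ J a (x / 2) := by
  obtain ⟨G, hG⟩ : ∃ G : ℕ → ℂ, ∀ j, G j = ((μ ^ (j + 1) - μ ^ j : ℝ) : ℂ) * a (x / μ ^ j) :=
    ⟨_, fun _ => rfl⟩
  have h1 : ∀ n, Ms μ n a x = ∑ j ∈ range n, G j := fun n => by
    unfold Ms
    exact sum_congr rfl fun j _ => (hG j).symm
  have h2 : ∀ n k : ℕ, ((μ ^ k : ℝ) : ℂ) * Ms μ n a (x / μ ^ k) = ∑ j ∈ range n, G (k + j) := by
    intro n k
    unfold Ms
    rw [mul_sum]
    refine sum_congr rfl fun j _ => ?_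
    rw [hG, div_div, ← pow_add, ← mul_assoc]
    congr 1
    rw [← Complex.ofReal_mul]
    congr 1
    ring
  have h3 : (2 : ℂ) * Ms μ J a (x / 2) = ∑ j ∈ range J, G (m + j) := by
    rw [← h2 J m, hm]; norm_num
  rw [h1, h1, h2, h3]
  have e1 := sum_range_add G m J
  have e2 := sum_range_add G J m
  rw [add_comm J m] at e2
  have e3 := e1.symm.trans e2
  linear_combination e3

end DCV

open DCV

/-- the mesh sum is small on average -/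
theorem avT (h : Pool.Agent.W251.EX.S_PW) {a : ℝ → ℂ} {C : ℝ} (hsv : Sv a C)
    (hyp : ∀ ε : ℝ, 0 < ε → ∀ Q₁ : ℕ,
      ∃ Q₂ N₀ : ℕ, ∀ N : ℕ, N₀ ≤ N → ∃ Q : ℕ, Q₁ ≤ Q ∧ Q ≤ Q₂ ∧
      ∑ X ∈ Icc 1 N, 1 / (X : ℝ) * ‖∑ p ∈ PQ Q, (Real.log p : ℂ) * a ((X : ℝ) / p)‖ ≤
        ε * Q * Real.log N) {m : ℕ} (hm : 1 ≤ m) (hT : Nc (Tm m a) C) {ε κ : ℝ} (hε : 0 < ε)
    (hκ : 0 < κ) : Av (fun x => ‖Tm m a x‖) (2 * ε + 10 * C / m + κ) := by
  have hC := hT.nn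
  have hm0 : (0 : ℝ) < m := by exact_mod_cast hm
  obtain ⟨Q₀, hQ₀⟩ := h a C hsv m hm
  obtain ⟨Q₂, N₀, hN₀⟩ := hyp ε hε (max Q₀ 1)
  choose! x₀ hx₀ using hQ₀
  obtain ⟨y₀, hy₀⟩ := hT.sv κ hκ
  obtain ⟨X₁, hX₁⟩ : ∃ X₁ : ℝ, ∀ Q : ℕ, Q ≤ Q₂ → x₀ Q ≤ X₁ := by
    refine ⟨∑ Q ∈ range (Q₂ + 1), |x₀ Q|, fun Q hQ => ?_⟩
    refine (le_abs_self _).trans ?_
    exact single_le_sum (f := fun Q => |x₀ Q|) (fun _ _ => abs_nonneg _) (mem_range.2 (by omega))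
  refine Av.of_large (B := C) (N₀ := N₀) (K := (2 * ε + 10 * C / m) * Real.log (2 * Q₂) +
    10 * C / m + C * ⌈X₁⌉₊ + κ + 2 * C + C * ⌈y₀⌉₊) (by positivity) hC hT.bd fun N hN hNN => ?_
  have hlogN : 0 ≤ Real.log N := Real.log_nonneg (by exact_mod_cast hN)
  by_cases hQ2 : Q₂ = 0
  · -- impossible
    obtain ⟨Q, hQa, hQb, _⟩ := hN₀ N₀ le_rfl
    have : 1 ≤ Q := (le_max_right _ _).trans hQa
    omega
  have hQ21 : 1 ≤ Q₂ := by omega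
  obtain ⟨Q, hQa, hQb, hQc⟩ := hN₀ (Q₂ * (N + 1)) (by nlinarith)
  have hQ1 : 1 ≤ Q := (le_max_right _ _).trans hQa
  have hQ0 : Q₀ ≤ Q := (le_max_left _ _).trans hQa
  have hQpos : (0 : ℝ) < Q := by exact_mod_cast hQ1
  have h1 := group_ineq (f := fun x => ‖Tm m a x‖) (B := C) (κ := κ) (y₀ := y₀)
    (fun _ => norm_nonneg _) hT.bd hκ.le
    (fun x x' h1 h2 h3 => norm_le_of (hy₀ x x' h1 h2 (by linarith))) Q hQ1 N
  beta_reduce at h1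
  have h2 : ∑ X ∈ Icc 1 (Q * (N + 1)), 1 / (X : ℝ) * ‖Tm m a ((X : ℝ) / Q)‖ ≤
      ∑ X ∈ Icc 1 (Q₂ * (N + 1)), 1 / (X : ℝ) * ‖Tm m a ((X : ℝ) / Q)‖ := by
    refine sum_le_sum_of_subset_of_nonneg ?_ fun X _ _ => mul_nonneg (by positivity) (norm_nonneg _)
    exact Icc_subset_Icc_right (Nat.mul_le_mul_right _ hQb)
  have hpt : ∀ X ∈ Icc 1 (Q₂ * (N + 1)), 1 / (X : ℝ) * ‖Tm m a ((X : ℝ) / Q)‖ ≤
      2 / (Q : ℝ) * (1 / (X : ℝ) * ‖∑ p ∈ PQ Q, (Real.log p : ℂ) * a ((X : ℝ) / p)‖) +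
        1 / (X : ℝ) * (10 * C / m) + (if (X : ℝ) < X₁ then C else 0) := by
    intro X hX
    obtain ⟨hi, hi0⟩ := inv_bd (mem_Icc.1 hX).1
    have h3 : 0 ≤ 1 / (X : ℝ) * (10 * C / m) := by positivity
    split_ifs with hlt
    · have h4 := mul_le_mul_of_nonneg_left (hT.bd ((X : ℝ) / Q)) hi0
      have h5 : 1 / (X : ℝ) * C ≤ 1 * C := mul_le_mul_of_nonneg_right hi hC
      have h6 : 0 ≤ 2 / (Q : ℝ) *
        (1 / (X : ℝ) * ‖∑ p ∈ PQ Q, (Real.log p : ℂ) * a ((X : ℝ) / p)‖) := by positivity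
      linarith
    · rw [add_zero]
      have h4 := hx₀ Q hQ0 X ((hX₁ Q hQb).trans (not_lt.1 hlt))
      have h5 : ‖(Q : ℂ) / 2 * Tm m a ((X : ℝ) / Q)‖ ≤
          ‖∑ p ∈ PQ Q, (Real.log p : ℂ) * a ((X : ℝ) / p)‖ + 5 * C / m * Q := norm_le_of h4
      rw [norm_mul, norm_div, Complex.norm_natCast, Complex.norm_ofNat] at h5
      have h6 : ‖Tm m a ((X : ℝ) / Q)‖ ≤
          2 / (Q : ℝ) * ‖∑ p ∈ PQ Q, (Real.log p : ℂ) * a ((X : ℝ) / p)‖ + 10 * C / m := by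
        have h7 := mul_le_mul_of_nonneg_left h5 (show 0 ≤ 2 / (Q : ℝ) by positivity)
        have e1 : 2 / (Q : ℝ) * ((Q : ℝ) / 2 * ‖Tm m a ((X : ℝ) / Q)‖) = ‖Tm m a ((X : ℝ) / Q)‖ := by
          field_simp
        have e2 : 2 / (Q : ℝ) * (5 * C / m * Q) = 10 * C / m := by
          field_simp
          ring
        rw [e1, mul_add, e2] at h7
        exact h7
      have h8 := mul_le_mul_of_nonneg_left h6 hi0
      linarith
  have h3 := sum_le_sum hpt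
  rw [sum_add_distrib, sum_add_distrib, ← mul_sum, ← sum_mul] at h3
  have h4 := mul_le_mul_of_nonneg_left hQc (show 0 ≤ 2 / (Q : ℝ) by positivity)
  have e4 : 2 / (Q : ℝ) * (ε * Q * Real.log ((Q₂ * (N + 1) : ℕ) : ℝ)) =
      2 * ε * Real.log ((Q₂ * (N + 1) : ℕ) : ℝ) := by
    field_simp
  rw [e4] at h4
  have h5 := mul_le_mul_of_nonneg_right (sum_inv_le (Q₂ * (N + 1))) (show 0 ≤ 10 * C / (m : ℝ) by positivity)
  have h6 := count_lt X₁ C hC (Q₂ * (N + 1))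
  have h7 := mul_le_mul_of_nonneg_left (log_mul_le hQ21 hN) (show 0 ≤ 2 * ε + 10 * C / m by positivity)
  linarith

theorem dcv (h : Pool.Agent.W251.EX.S_PW) : Pool.Agent.W251.EX.S_DCV := by
  intro a C hsv hyp ε hε
  have hNa := Sv_Nc hsv
  have hC := hNa.nn
  -- the choice of `J`
  obtain ⟨J, hJ1, hJε⟩ : ∃ J : ℕ, 1 ≤ J ∧ (46 + 121 * C) / J ≤ ε / 2 := by
    refine ⟨⌈2 * (46 + 121 * C) / ε⌉₊ + 1, by omega, ?_⟩
    have h1 := Nat.le_ceil (2 * (46 + 121 * C) / ε)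
    rw [div_le_iff₀ hε] at h1
    rw [div_le_iff₀ (by positivity)]
    push_cast
    nlinarith
  have hJ0 : (0 : ℝ) < J := by exact_mod_cast hJ1
  obtain ⟨m, hmJ⟩ : ∃ m, m = J ^ 2 := ⟨_, rfl⟩
  have hm1 : 1 ≤ m := hmJ ▸ Nat.one_le_pow _ _ hJ1
  have hm0 : (0 : ℝ) < m := by exact_mod_cast hm1
  have hmR : (m : ℝ) = (J : ℝ) ^ 2 := by rw [hmJ]; push_cast; ring
  obtain ⟨μ, hμ⟩ : ∃ μ : ℝ, μ = (2 : ℝ) ^ (1 / (m : ℝ)) := ⟨_, rfl⟩
  have hμ1 : 1 ≤ μ := by rw [hμ]; exact Real.one_le_rpow (by norm_num) (by positivity)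
  have hμ0 : 0 < μ := by linarith
  have hμm : μ ^ m = 2 := by
    rw [hμ, ← Real.rpow_natCast, ← Real.rpow_mul (by norm_num), one_div_mul_cancel hm0.ne',
      Real.rpow_one]
  obtain ⟨lam, hlam⟩ : ∃ lam : ℝ, lam = μ ^ J := ⟨_, rfl⟩
  have hlamJ : lam ^ J = 2 := by rw [hlam, ← pow_mul, ← pow_two, ← hmJ, hμm]
  have hlam1 : 1 ≤ lam := hlam ▸ one_le_pow₀ hμ1
  have hJm : J ≤ m := by rw [hmJ]; nlinarith
  have hlam2 : lam ≤ 2 := by
    rw [hlam, ← hμm]; exact pow_le_pow_right₀ hμ1 hJm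
  have hlamub : lam - 1 ≤ 1 / J := by
    by_contra hcon
    push Not at hcon
    have h1 : (1 + 1 / (J : ℝ)) ^ J < lam ^ J := pow_lt_pow_left₀ (by linarith) (by positivity) (by omega)
    have h2 := one_add_mul_le_pow (a := 1 / (J : ℝ)) (by have : 0 ≤ 1 / (J : ℝ) := by positivity
                                                         linarith) J
    rw [hlamJ] at h1
    rw [mul_one_div_cancel hJ0.ne'] at h2
    linarith
  have hlamlb : 1 / (2 * (J : ℝ)) ≤ lam - 1 := by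
    have h1 : Real.log lam = Real.log 2 / J := by
      rw [← hlamJ, Real.log_pow]; field_simp
    have h2 := Real.add_one_le_exp (Real.log lam)
    rw [Real.exp_log (by linarith), h1] at h2
    have h3 := Real.log_two_gt_d9
    have h4 : 1 / (2 * (J : ℝ)) ≤ Real.log 2 / J := by
      rw [div_le_div_iff₀ (by positivity) hJ0]
      nlinarith
    linarith
  have hlampos : 0 < lam - 1 := lt_of_lt_of_le (by positivity) hlamlb
  -- the functions `T` and `U`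
  have hTeq : Tm m a = Ms μ m a := by funext x; rw [Tm_eq, hμ]
  have hT : Nc (Tm m a) C := by rw [hTeq]; exact Ms_Nc hμ1 hμm.le hNa
  obtain ⟨κ, hκ⟩ : ∃ κ : ℝ, κ = 1 / (J : ℝ) ^ 2 := ⟨_, rfl⟩
  have hκ0 : 0 < κ := by rw [hκ]; positivity
  have hAT := avT h hsv hyp hm1 hT hκ0 hκ0
  obtain ⟨τ, hτ⟩ : ∃ τ : ℝ, τ = 2 * κ + 10 * C / m + κ := ⟨_, rfl⟩
  rw [← hτ] at hAT
  have hτ0 : 0 ≤ τ := by rw [hτ]; positivity
  have hU : Nc (Ms μ J a) C := Ms_Nc hμ1 (by rw [← hlam]; exact hlam2) hNa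
  rw [hTeq] at hAT hT
  obtain ⟨θ, hθ⟩ : ∃ θ : ℝ, θ = 3 * τ + 2 * κ := ⟨_, rfl⟩
  have hθ0 : 0 ≤ θ := by rw [hθ]; positivity
  have hc1 : 1 ≤ 2 / lam := by rw [le_div_iff₀ (by linarith)]; linarith
  have hc2 : 2 / lam ≤ 2 := by rw [div_le_iff₀ (by linarith)]; linarith
  have hstep : ∀ η : ℝ, 0 ≤ η → Av (fun x => ‖Ms μ J a x‖) η →
      Av (fun x => ‖Ms μ J a x‖) (η / 2 + θ) := by
    intro η hη hA
    have h1 := (dil2 hU hκ0 hη hA).smul (show (0 : ℝ) ≤ 1 / 2 by norm_num)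
    have h2 := (dilc hT (show (1 : ℝ) ≤ 2 by norm_num) le_rfl hκ0 hAT).smul
      (show (0 : ℝ) ≤ 1 / 2 by norm_num)
    have h3 := (dilc hT hc1 hc2 hκ0 hAT).smul (show (0 : ℝ) ≤ lam / 2 by linarith)
    have h4 := (h1.add h2).add h3
    refine (h4.mono_ev (x₀ := 0) (fun x => by positivity) hC hU.bd fun x _ => ?_).weaken ?_
    · have ht := tele (J := J) hμm a (2 * x)
      rw [← hlam, show 2 * x / 2 = x by ring, show 2 * x / lam = 2 / lam * x by ring] at ht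
      have e : Ms μ J a x = (1 / 2 : ℂ) * (Ms μ J a (2 * x) - Ms μ m a (2 * x) +
          (lam : ℂ) * Ms μ m a (2 / lam * x)) := by linear_combination (1 / 2 : ℂ) * ht
      rw [e, norm_mul]
      have e2 : ‖(1 / 2 : ℂ)‖ = 1 / 2 := by norm_num
      rw [e2]
      have h5 : ‖Ms μ J a (2 * x) - Ms μ m a (2 * x) + (lam : ℂ) * Ms μ m a (2 / lam * x)‖ ≤
          ‖Ms μ J a (2 * x)‖ + ‖Ms μ m a (2 * x)‖ + lam * ‖Ms μ m a (2 / lam * x)‖ := by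
        refine (norm_add_le _ _).trans ?_
        rw [norm_mul, Complex.norm_real, Real.norm_of_nonneg (by linarith)]
        exact add_le_add (norm_sub_le _ _) le_rfl
      linarith
    · rw [hθ]
      have : lam / 2 * (2 * τ + κ) ≤ 1 * (2 * τ + κ) :=
        mul_le_mul_of_nonneg_right (by linarith) (by positivity)
      linarith
  have hiter : ∀ k : ℕ, Av (fun x => ‖Ms μ J a x‖) (C / 2 ^ k + 2 * θ) := by
    intro k
    induction k with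
    | zero => exact (Av.of_bd hC hU.bd).weaken (by simp; exact hθ0)
    | succ k ih =>
      refine (hstep _ (by positivity) ih).weaken ?_
      rw [pow_succ]
      apply le_of_eq
      field_simp
      ring
  obtain ⟨k, hk⟩ : ∃ k : ℕ, C / 2 ^ k ≤ κ := by
    have h1 : Tendsto (fun k : ℕ => C * (1 / 2 : ℝ) ^ k) atTop (nhds (C * 0)) :=
      (tendsto_pow_atTop_nhds_zero_of_lt_one (by norm_num) (by norm_num)).const_mul C
    rw [mul_zero] at h1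
    obtain ⟨k, hk⟩ := (h1.eventually (gt_mem_nhds hκ0)).exists
    refine ⟨k, ?_⟩
    rw [one_div, inv_pow, ← div_eq_mul_inv] at hk
    exact hk.le
  have hAU : Av (fun x => ‖Ms μ J a x‖) (2 * θ + κ) := (hiter k).weaken (by linarith)
  -- from `U` to `a`
  obtain ⟨x₀, hx₀⟩ := hsv.reg (lam - 1) hlampos (by linarith)
  have hAa : Av (fun x => ‖a x‖) (1 / (lam - 1) * (2 * θ + κ) + C * (lam - 1)) := by
    refine ((hAU.smul (show 0 ≤ 1 / (lam - 1) by positivity)).add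
      (Av.const (show 0 ≤ C * (lam - 1) by positivity))).mono_ev (x₀ := 2 * |x₀|)
      (fun x => by positivity) hC hNa.bd fun x hx => ?_
    have hx0 : 0 ≤ x := by have := abs_nonneg x₀; linarith
    have h1 : ‖Ms μ J a x - ((lam - 1 : ℝ) : ℂ) * a x‖ ≤ (lam - 1) * (C * (lam - 1)) := by
      have e : ((lam - 1 : ℝ) : ℂ) * a x = ∑ j ∈ range J, ((μ ^ (j + 1) - μ ^ j : ℝ) : ℂ) * a x := by
        rw [← sum_mul, ← Complex.ofReal_sum, sum_w, hlam]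
      rw [e]
      unfold Ms
      rw [← sum_sub_distrib]
      refine (norm_sum_le _ _).trans ?_
      conv_rhs => rw [show lam - 1 = μ ^ J - 1 by rw [hlam], ← sum_w, sum_mul]
      refine sum_le_sum fun j hj => ?_
      rw [← mul_sub, norm_mul, norm_w hμ1]
      have hw0 : 0 ≤ μ ^ (j + 1) - μ ^ j := by
        have := pow_le_pow_right₀ hμ1 (show j ≤ j + 1 by omega)
        linarith
      refine mul_le_mul_of_nonneg_left ?_ hw0
      have hj1 : 1 ≤ μ ^ j := one_le_pow₀ hμ1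
      have hj2 : μ ^ j ≤ lam := by
        rw [hlam]; exact pow_le_pow_right₀ hμ1 (mem_range.1 hj).le
      have hj0 : 0 < μ ^ j := by linarith
      rw [norm_sub_rev]
      have e3 : ∑ j ∈ range J, (μ ^ (j + 1) - μ ^ j) = lam - 1 := by rw [sum_w, hlam]
      rw [e3]
      refine hx₀ _ _ ?_ ?_ ?_
      · rw [le_div_iff₀ hj0]
        have h4 := le_abs_self x₀
        have h5 := abs_nonneg x₀
        nlinarith
      · rw [div_le_iff₀ hj0]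
        nlinarith
      · rw [mul_div_assoc', le_div_iff₀ hj0]
        nlinarith
    have h2 : ‖((lam - 1 : ℝ) : ℂ) * a x‖ ≤ ‖Ms μ J a x‖ + (lam - 1) * (C * (lam - 1)) := norm_le_of h1
    rw [norm_mul, Complex.norm_real, Real.norm_of_nonneg hlampos.le] at h2
    have h3 := mul_le_mul_of_nonneg_left h2 (show 0 ≤ 1 / (lam - 1) by positivity)
    have e1 : 1 / (lam - 1) * ((lam - 1) * ‖a x‖) = ‖a x‖ := by field_simp
    have e2 : 1 / (lam - 1) * ((lam - 1) * (C * (lam - 1))) = C * (lam - 1) := by field_simp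
    rw [e1, mul_add, e2] at h3
    exact h3
  have hfin : Av (fun x => ‖a x‖) (ε / 2) := by
    refine hAa.weaken ?_
    have h1 : 1 / (lam - 1) ≤ 2 * J := by
      rw [div_le_iff₀ hlampos]
      have := mul_le_mul_of_nonneg_left hlamlb (show (0 : ℝ) ≤ 2 * J by positivity)
      rw [mul_one_div_cancel (by positivity)] at this
      exact this
    have h2 : 1 / (lam - 1) * (2 * θ + κ) ≤ 2 * J * (2 * θ + κ) :=
      mul_le_mul_of_nonneg_right h1 (by positivity)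
    have h3 : C * (lam - 1) ≤ C * (1 / J) := mul_le_mul_of_nonneg_left hlamub hC
    have h4 : 2 * J * (2 * θ + κ) + C * (1 / J) = (46 + 121 * C) / J := by
      rw [hθ, hτ, hκ, hmR]
      field_simp
      ring
    linarith
  obtain ⟨K, hK⟩ := hfin
  obtain ⟨N₀, hN₀⟩ : ∃ N₀ : ℕ, ∀ N : ℕ, N₀ ≤ N → K ≤ ε / 2 * Real.log N := by
    have h1 : Tendsto (fun N : ℕ => ε / 2 * Real.log N) atTop atTop :=
      (Real.tendsto_log_atTop.comp tendsto_natCast_atTop_atTop).const_mul_atTop (by positivity)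
    obtain ⟨N₀, hN₀⟩ := (h1.eventually_ge_atTop K).exists_forall_of_atTop
    exact ⟨N₀, hN₀⟩
  refine ⟨max N₀ 1, fun N hN => ?_⟩
  have h1 := hK N ((le_max_right _ _).trans hN)
  have h2 := hN₀ N ((le_max_left _ _).trans hN)
  linarith

end Pool.Agent.W588.EX
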